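import Pool.Agent.H630R2.LR.Mods

/-!
# The Chinese remainder model for a whole family of functions on an abelian group
-/

set_option autoImplicit false

namespace Pool.Agent.TH668.LR

open Finset Pool.Agent.H630R2.LR

theorem crt_family {G : Type} [AddCommGroup G] [Fintype G] {J : Type} [Fintype J]
    (f : J → G → Bool) (d : ℕ) (gens : Fin d → G)
    (hgens : ∀ x : G, ∃ a : Fin d → ℤ, x = ∑ i, a i • gens i) (s k : ℕ)
    (hord : ∀ j, ∀ χ ∈ spec (f j), (orderOf χ).primeFactors.card ≤ k)
    (hpp : ∀ j, ∀ χ ∈ spec (f j), ∀ p : ℕ, p.Prime → p ^ (orderOf χ).factorization p ≤ s) :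
    ∃ (I : Type) (_ : Fintype I) (_ : DecidableEq I) (Ω : I → Type)
      (_ : ∀ i, Fintype (Ω i)) (θ : (∀ i, Ω i) → G) (q : G → ∀ i, Ω i),
      (∀ i, Fintype.card (Ω i) ≤ s ^ d) ∧ (∀ j, Vanish (fun u => f j (θ u)) k) ∧
        ∀ j x, f j (θ (q x)) = f j x := by
  classical
  have hpos : ∀ χ : AddChar G ℂ, orderOf χ ≠ 0 := fun χ => (orderOf_pos χ).ne'
  set SS : Finset (AddChar G ℂ) := Finset.univ.biUnion (fun j => spec (f j)) with hSS
  have hmemSS : ∀ χ ∈ SS, ∃ j, χ ∈ spec (f j) := by
    intro χ hχ
    rw [hSS, Finset.mem_biUnion] at hχ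
    obtain ⟨j, _, hj⟩ := hχ
    exact ⟨j, hj⟩
  have hSSmem : ∀ j, ∀ χ ∈ spec (f j), χ ∈ SS := fun j χ hχ =>
    Finset.mem_biUnion.2 ⟨j, Finset.mem_univ _, hχ⟩
  set L : ℕ := SS.lcm orderOf with hL
  have hL0 : L ≠ 0 := (factorization_lcm SS orderOf (fun χ _ => hpos χ) 0).1
  have hLf : ∀ p, L.factorization p = SS.sup fun χ => (orderOf χ).factorization p :=
    fun p => (factorization_lcm SS orderOf (fun χ _ => hpos χ) p).2
  have hdvd : ∀ j, ∀ χ ∈ spec (f j), orderOf χ ∣ L := fun j χ hχ =>
    Finset.dvd_lcm (hSSmem j χ hχ)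
  let I := {p : ℕ // p ∈ L.primeFactors}
  have hprime : ∀ p : I, (p : ℕ).Prime := fun p => Nat.prime_of_mem_primeFactors p.2
  let n : I → ℕ := fun p => (p : ℕ) ^ L.factorization p
  let m : I → ℕ := fun p => L / n p
  have hnm : ∀ p, n p * m p = L := fun p => Nat.ordProj_mul_ordCompl_eq_self L p
  have hn0 : ∀ p, 0 < n p := fun p => pow_pos (hprime p).pos _
  have hcop : ∀ p, (n p).Coprime (m p) := fun p =>
    (Nat.coprime_ordCompl (hprime p) hL0).pow_left _
  have hns : ∀ p, n p ≤ s := by
    intro p
    have h1 : 0 < L.factorization p := (hprime p).factorization_pos_of_dvd hL0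
      (Nat.dvd_of_mem_primeFactors p.2)
    have hne : SS.Nonempty := by
      rw [Finset.nonempty_iff_ne_empty]
      intro he
      rw [hLf, he] at h1
      simp at h1
    obtain ⟨χ, hχ, hχ2⟩ := Finset.exists_mem_eq_sup SS hne
      (fun χ => (orderOf χ).factorization (p : ℕ))
    show (p : ℕ) ^ L.factorization p ≤ s
    rw [hLf, hχ2]
    obtain ⟨j, hj⟩ := hmemSS χ hχ
    exact hpp j χ hj p (hprime p)
  -- idempotents
  have hc : ∀ p : I, ∃ c : ℕ, c ≡ 1 [MOD n p] ∧ c ≡ 0 [MOD m p] := fun p =>
    ⟨Nat.chineseRemainder (hcop p) 1 0, (Nat.chineseRemainder (hcop p) 1 0).2⟩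
  choose c hc1 hc0 using hc
  have hmc : ∀ p, m p ∣ c p := fun p => (Nat.modEq_zero_iff_dvd).1 (hc0 p)
  have hLcn : ∀ p, L ∣ c p * n p := fun p => by
    rw [← hnm p, mul_comm (n p)]
    exact Nat.mul_dvd_mul_right (hmc p) _
  have hnqm : ∀ p q : I, p ≠ q → n q ∣ m p := by
    intro p q hpq
    have h1 : n q ∣ n p * m p := by rw [hnm]; exact Nat.ordProj_dvd L q
    have h2 : (n q).Coprime (n p) := by
      refine Nat.Coprime.pow _ _ ?_
      rw [Nat.coprime_primes (hprime q) (hprime p)]
      exact fun h => hpq (Subtype.ext h.symm)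
    exact h2.dvd_of_dvd_mul_left h1
  have hsum : (∑ p, c p) ≡ 1 [MOD L] := by
    rw [Nat.modEq_iff_dvd, Int.natCast_dvd, Nat.dvd_iff_prime_pow_dvd_dvd]
    intro q e hq hqe
    rcases Nat.eq_zero_or_pos e with rfl | he
    · simp
    have hqL : q ∣ L := (dvd_pow_self q he.ne').trans hqe
    let q' : I := ⟨q, Nat.mem_primeFactors.2 ⟨hq, hqL, hL0⟩⟩
    have h1 : q ^ e ∣ n q' := by
      rw [hq.pow_dvd_iff_le_factorization hL0] at hqe
      exact pow_dvd_pow q hqe
    refine h1.trans ?_
    rw [← Int.natCast_dvd, ← Nat.modEq_iff_dvd]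
    have h2 : ∀ p : I, c p ≡ (if p = q' then 1 else 0) [MOD n q'] := by
      intro p
      by_cases hp : p = q'
      · rw [if_pos hp, hp]; exact hc1 q'
      · rw [if_neg hp]
        exact (Nat.modEq_zero_iff_dvd).2 ((hnqm p q' hp).trans (hmc p))
    have h3 : (∑ p, c p) ≡ ∑ p : I, (if p = q' then 1 else 0) [MOD n q'] := by
      have : ∀ t : Finset I, (∑ p ∈ t, c p) ≡ ∑ p ∈ t, (if p = q' then 1 else 0) [MOD n q'] := by
        intro t
        induction t using Finset.induction_on with
        | empty => simp [Nat.ModEq]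
        | insert a t ha ih =>
          rw [Finset.sum_insert ha, Finset.sum_insert ha]
          exact (h2 a).add ih
      exact this _
    have h4 : (∑ p : I, (if p = q' then 1 else 0)) = 1 := by
      rw [Finset.sum_ite_eq']
      simp
    rw [h4] at h3
    exact h3
  -- the subgroups
  let H : I → AddSubgroup G := fun p => (nsmulAddMonoidHom (α := G) (n p)).range
  have hpow : ∀ (χ : AddChar G ℂ) (N : ℕ) (z : G), orderOf χ ∣ N → χ z ^ N = 1 := by
    intro χ N z hN
    rw [← AddChar.pow_apply, orderOf_dvd_iff_pow_eq_one.1 hN, AddChar.one_apply]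
  let θ : (∀ p : I, G ⧸ H p) → G := fun a => ∑ p, c p • (a p).out
  refine ⟨I, inferInstance, inferInstance, fun p => G ⧸ H p,
    fun p => Fintype.ofFinite _, θ, fun x p => QuotientAddGroup.mk' (H p) x, fun p => ?_,
    fun j => ?_, fun j x => ?_⟩
  · -- cardinality
    have hsurj : Function.Surjective (fun a : Fin d → Fin (n p) =>
        (QuotientAddGroup.mk (∑ i, (a i : ℕ) • gens i) : G ⧸ H p)) := by
      intro y
      obtain ⟨x, rfl⟩ := QuotientAddGroup.mk_surjective y
      obtain ⟨a, ha⟩ := hgens x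
      have hnz : (n p : ℤ) ≠ 0 := by exact_mod_cast (hn0 p).ne'
      refine ⟨fun i => ⟨(a i % n p).toNat, ?_⟩, ?_⟩
      · have h1 := Int.emod_nonneg (a i) hnz
        have h2 := Int.emod_lt_of_pos (a i) (by exact_mod_cast hn0 p : (0 : ℤ) < n p)
        omega
      · rw [QuotientAddGroup.eq]
        refine ⟨∑ i, (a i / n p) • gens i, ?_⟩
        rw [ha]
        simp only [nsmulAddMonoidHom_apply]
        rw [Finset.smul_sum, ← Finset.sum_neg_distrib, ← Finset.sum_add_distrib]
        refine Finset.sum_congr rfl fun i _ => ?_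
        have h1 := Int.emod_nonneg (a i) hnz
        have h3 : ((a i % n p).toNat • gens i : G) = (a i % n p) • gens i := by
          rw [← natCast_zsmul, Int.toNat_of_nonneg h1]
        have h4 : (n p • ((a i / n p) • gens i) : G) = ((n p : ℤ) * (a i / n p)) • gens i := by
          rw [← natCast_zsmul, mul_zsmul']
          rw [smul_comm]
        rw [h3, h4, ← neg_smul, ← add_smul]
        congr 1
        have := Int.emod_add_mul_ediv (a i) (n p)
        linarith
    have h1 := @Fintype.card_le_of_surjective _ _ _ (Fintype.ofFinite _) _ hsurj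
    refine h1.trans ?_
    rw [Fintype.card_fun, Fintype.card_fin, Fintype.card_fin]
    exact Nat.pow_le_pow_left (hns p) d
  · -- vanishing
    intro S u v hS
    set g : (∀ p : I, G ⧸ H p) → Bool := fun a => f j (θ a) with hg
    have hcard : (Fintype.card G : ℂ) ≠ 0 := by
      have : 0 < Fintype.card G := Fintype.card_pos
      exact_mod_cast this.ne'
    have h1 : (Fintype.card G : ℂ) * ((diff g S u v : ℤ) : ℂ) = 0 := by
      have h2 : (Fintype.card G : ℂ) * ((diff g S u v : ℤ) : ℂ) =
          ∑ χ ∈ spec (f j), fc (f j) χ * ∑ T ∈ S.powerset, (-1 : ℂ) ^ (S \ T).card *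
            χ (-(∑ p, c p • ((T.piecewise v u) p).out)) := by
        simp only [diff, Int.cast_sum, Int.cast_mul, Int.cast_pow, Int.cast_neg, Int.cast_one,
          Finset.mul_sum]
        rw [Finset.sum_comm]
        refine Finset.sum_congr rfl fun T _ => ?_
        have h3 := fourier_inv (f j) (∑ p, c p • ((T.piecewise v u) p).out)
        have h4 : (Fintype.card G : ℂ) * ((-1) ^ (S \ T).card *
            (((if g (T.piecewise v u) then (1 : ℤ) else 0) : ℤ) : ℂ)) =
            (-1) ^ (S \ T).card * ((Fintype.card G : ℂ) *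
              (if f j (∑ p, c p • ((T.piecewise v u) p).out) then 1 else 0)) := by
          have : (((if g (T.piecewise v u) then (1 : ℤ) else 0) : ℤ) : ℂ) =
            (if f j (∑ p, c p • ((T.piecewise v u) p).out) then 1 else 0) := by
            by_cases h : f j (∑ p, c p • ((T.piecewise v u) p).out)
            · have h' : g (T.piecewise v u) = true := h
              rw [if_pos h, if_pos h']; simp
            · have h' : ¬ g (T.piecewise v u) = true := h
              rw [if_neg h, if_neg h']; simp
          rw [this]; ring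
        rw [h4, h3, Finset.mul_sum]
        refine Finset.sum_congr rfl fun χ _ => ?_
        ring
      rw [h2]
      refine Finset.sum_eq_zero fun χ hχ => ?_
      -- a prime in `S` not dividing the order
      have h5 : ∃ p ∈ S, (p : ℕ) ∉ (orderOf χ).primeFactors := by
        by_contra hcon
        push Not at hcon
        have h6 : (S.map (Function.Embedding.subtype _)) ⊆ (orderOf χ).primeFactors := by
          intro x hx
          rw [Finset.mem_map] at hx
          obtain ⟨p, hp, rfl⟩ := hx
          exact hcon p hp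
        have h7 := Finset.card_le_card h6
        rw [Finset.card_map] at h7
        have := hord j χ hχ
        omega
      obtain ⟨p, hpS, hp⟩ := h5
      have h8 : ¬ (p : ℕ) ∣ orderOf χ := fun h => hp (Nat.mem_primeFactors.2
        ⟨hprime p, h, hpos χ⟩)
      have h9 : orderOf χ ∣ m p := by
        have h10 : orderOf χ ∣ n p * m p := by rw [hnm]; exact hdvd j χ hχ
        have h11 : (orderOf χ).Coprime (n p) :=
          (((hprime p).coprime_iff_not_dvd.2 h8).symm).pow_right _
        exact h11.dvd_of_dvd_mul_left h10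
      have h12 : ∀ z : G, χ (c p • z) = 1 := by
        intro z
        rw [AddChar.map_nsmul_eq_pow]
        exact hpow χ _ z (h9.trans (hmc p))
      have h13 := sum_powerset_indep (fun a : (∀ p : I, G ⧸ H p) =>
        χ (-(∑ p, c p • (a p).out))) S p hpS (fun x a => by
          have h14 : ∀ y : (∀ p : I, G ⧸ H p), χ (-(∑ p, c p • (y p).out)) =
              χ (-(∑ p' ∈ univ.erase p, c p' • (y p').out)) := by
            intro y
            rw [← Finset.add_sum_erase _ _ (Finset.mem_univ p), neg_add, AddChar.map_add_eq_mul,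
              AddChar.map_neg_eq_inv χ (c p • _), h12, inv_one, one_mul]
          rw [h14, h14]
          congr 2
          refine Finset.sum_congr rfl fun p' hp' => ?_
          rw [Function.update_of_ne (Finset.ne_of_mem_erase hp')]) u v
      rw [h13, mul_zero]
    have h15 := (mul_eq_zero.1 h1).resolve_left hcard
    exact_mod_cast h15
  · -- the model
    have h1 : ∀ p : I, ∃ y : G, (QuotientAddGroup.mk x : G ⧸ H p).out = x + n p • y := by
      intro p
      obtain ⟨⟨h, hh⟩, e⟩ := QuotientAddGroup.mk_out_eq_add (H p) x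
      obtain ⟨y, rfl⟩ := hh
      exact ⟨y, e⟩
    choose y hy using h1
    have h2 : f j (x + (∑ p, c p • (QuotientAddGroup.mk x : G ⧸ H p).out - x)) = f j x := by
      refine invariant_of_chars (f j) x _ fun χ hχ => ?_
      rw [sub_eq_add_neg, AddChar.map_add_eq_mul, AddChar.map_neg_eq_inv]
      have hne : χ x ≠ 0 := by
        intro h
        have := AddChar.map_add_eq_mul χ x (-x)
        rw [h, zero_mul, add_neg_cancel, AddChar.map_zero_eq_one] at this
        exact one_ne_zero this
      have h3 : χ (∑ p, c p • (QuotientAddGroup.mk x : G ⧸ H p).out) = χ x := by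
        rw [addChar_sum]
        have h4 : ∀ p : I, χ (c p • (QuotientAddGroup.mk x : G ⧸ H p).out) = χ x ^ c p := by
          intro p
          rw [hy, nsmul_add, AddChar.map_add_eq_mul, AddChar.map_nsmul_eq_pow, ← mul_nsmul',
            AddChar.map_nsmul_eq_pow, hpow χ _ _ ((hdvd j χ hχ).trans (hLcn p)), mul_one]
        simp only [h4]
        rw [Finset.prod_pow_eq_pow_sum]
        have h5 : (∑ p, c p) ≡ 1 [MOD orderOf χ] := hsum.of_dvd (hdvd j χ hχ)
        have h6 : χ ^ (∑ p, c p) = χ ^ 1 := pow_eq_pow_iff_modEq.2 h5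
        rw [← AddChar.pow_apply, h6, pow_one]
      rw [h3, mul_inv_cancel₀ hne]
    rw [← h2]
    congr 1
    abel_nf
    rfl


end Pool.Agent.TH668.LR
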