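import Pool.Agent.TH668.LR.Sym

/-!
# The log-rank bound for matrices and graphs with layers of symmetries
-/

set_option autoImplicit false
set_option linter.unusedSectionVars false

namespace Pool.Agent.TH668.LR

open Finset Pool.Agent.H630R2.LR Pool.Agent.H287R3.LR

/-- `A` is abelian and generated by `d` elements. -/
def AbelianRank {Γ : Type} [Group Γ] (d : ℕ) (A : Subgroup Γ) : Prop :=
  (∀ a b : A, a * b = b * a) ∧ ∃ gens : Fin d → A, Subgroup.closure (Set.range gens) = ⊤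

/-- `A` is a homomorphic image of a direct product (any finite number of factors) of finite perfect
groups `H j` such that every nontrivial complex matrix representation of `H j` of degree `n`
satisfies `log₂ |H j| ≤ κ (log₂ n) ^ s`. -/
def QuasirandomProduct {Γ : Type} [Group Γ] (κ : ℝ) (s : ℕ) (A : Subgroup Γ) : Prop :=
  ∃ (J : Type) (_ : Fintype J) (H : J → Type) (_ : ∀ j, Group (H j)) (_ : ∀ j, Finite (H j))
    (φ : (∀ j, H j) →* Γ), φ.range = A ∧ ∀ j, commutator (H j) = ⊤ ∧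
      ∀ (n : ℕ) (ρ : H j →* Matrix.GeneralLinearGroup (Fin n) ℂ), ρ ≠ 1 →
        Real.logb 2 (Nat.card (H j)) ≤ κ * (Real.logb 2 n) ^ s

variable {Γ X Y : Type} [Group Γ] [Finite Γ] [Fintype X] [Fintype Y] [MulAction Γ X]
  [MulAction Γ Y]

/-- the number of bits per coordinate -/
noncomputable def bits (d s : ℕ) (κ : ℝ) (r : ℕ) : ℕ :=
  max (d * Nat.clog 2 (2 * r)) (⌊κ * (Real.logb 2 (r : ℝ)) ^ s⌋₊ + 1)

theorem isLayer_of (F : X → Y → Bool)
    (hF : ∀ (g : Γ) (x : X) (y : Y), F (g • x) (g • y) = F x y) (d s : ℕ) (κ : ℝ) (hκ : 0 ≤ κ)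
    (A : Subgroup Γ) (hA : AbelianRank d A ∨ QuasirandomProduct κ s A) :
    IsLayer F (A : Set Γ) (Nat.log 2 (comm F).rank + 1) (bits d s κ (comm F).rank) := by
  classical
  rcases hA with ⟨h1, gens, h2⟩ | ⟨J, i1, H, i2, i3, φ, h1, h2⟩
  · exact (abelian_layer A h1 d gens h2 F hF).mono le_rfl (le_max_left _ _)
  · have := perfect_layer φ (fun j => (h2 j).1) κ hκ s (fun j => (h2 j).2) F hF
    rw [← h1, MonoidHom.coe_range]
    exact this.mono (Nat.le_succ _) (le_max_right _ _)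

theorem bits_le (d s : ℕ) (κ : ℝ) (hκ : 0 ≤ κ) (r : ℕ) :
    (bits d s κ r : ℝ) ≤ κ * (Real.logb 2 (r : ℝ)) ^ s + 2 * d * (Real.logb 2 (r : ℝ) + 1) + 1 := by
  have hl := logb_nonneg r
  have hB0 : 0 ≤ κ * (Real.logb 2 (r : ℝ)) ^ s := by positivity
  have h1 : (Nat.clog 2 (2 * r) : ℝ) ≤ 2 * (Real.logb 2 r + 1) := by
    rcases Nat.eq_zero_or_pos r with rfl | hr
    · simp
    have h2 := clog_le (2 * r)
    have h3 : Real.logb 2 ((2 * r : ℕ) : ℝ) = 1 + Real.logb 2 r := by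
      push_cast
      rw [Real.logb_mul (by norm_num) (by positivity), Real.logb_self_eq_one (by norm_num)]
    rw [h3] at h2
    linarith
  have hd : (0 : ℝ) ≤ d := Nat.cast_nonneg _
  unfold bits
  rw [Nat.cast_max]
  apply max_le
  · push_cast
    have : (d : ℝ) * (Nat.clog 2 (2 * r) : ℝ) ≤ d * (2 * (Real.logb 2 r + 1)) := by gcongr
    linarith
  · push_cast
    have := Nat.floor_le hB0
    have h4 : 0 ≤ 2 * (d : ℝ) * (Real.logb 2 (r : ℝ) + 1) := by positivity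
    linarith

theorem sum_cubes_le (K : ℕ) : ∑ j ∈ range (K + 1), j ^ 3 ≤ K ^ 4 := by
  rw [Finset.sum_range_succ']
  simp only [ne_eq, OfNat.ofNat_ne_zero, not_false_eq_true, zero_pow, add_zero]
  calc ∑ k ∈ range K, (k + 1) ^ 3
      ≤ ∑ k ∈ range K, K ^ 3 := by
        refine Finset.sum_le_sum fun k hk => ?_
        have := Finset.mem_range.1 hk
        exact Nat.pow_le_pow_left (by omega) 3
    _ = K ^ 4 := by
        rw [Finset.sum_const, Finset.card_range, smul_eq_mul]; ring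

open Pointwise in
/-- **Matrices with layers of symmetries.** -/
theorem final_matrix (F : X → Y → Bool)
    (hF : ∀ (g : Γ) (x : X) (y : Y), F (g • x) (g • y) = F x y) (d s : ℕ) (κ : ℝ) (hκ : 0 ≤ κ)
    (l m : ℕ) (A : Fin l → Subgroup Γ) (B : Fin m → Subgroup Γ)
    (hA : ∀ i, AbelianRank d (A i) ∨ QuasirandomProduct κ s (A i))
    (hB : ∀ i, AbelianRank d (B i) ∨ QuasirandomProduct κ s (B i))
    (t : ℕ) (bX : Fin t → X) (bY : Fin t → Y)
    (hX : ∀ x, ∃ (j : Fin t) (a : ∀ i, A i), x = (List.ofFn fun i => (a i : Γ)).prod • bX j)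
    (hY : ∀ y, ∃ (j : Fin t) (b : ∀ i, B i), y = (List.ofFn fun i => (b i : Γ)).prod • bY j) :
    ∃ c : ℕ, Proto F c ∧ (c : ℝ) ≤
      (((l : ℝ) + m) * (Real.logb 2 ((comm F).rank : ℝ) + 1)) ^ 4 *
        (κ * (Real.logb 2 ((comm F).rank : ℝ)) ^ s +
          2 * d * (Real.logb 2 ((comm F).rank : ℝ) + 1) + 1) + 2 * (Real.logb 2 t + 1) := by
  classical
  set r := (comm F).rank with hr
  have hrT : (comm (fun (y : Y) (x : X) => F x y)).rank = r := by
    rw [hr, ← Matrix.rank_transpose]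
    rfl
  have hF' : ∀ (g : Γ) (y : Y) (x : X), (fun (y : Y) (x : X) => F x y) (g • y) (g • x) =
      (fun (y : Y) (x : X) => F x y) y x := fun g y x => hF g x y
  have hLA := isLayer_list hF (Nat.log 2 r + 1) (bits d s κ r)
    (List.ofFn fun i => (A i : Set Γ)) (by
      intro S hS
      rw [List.mem_ofFn] at hS
      obtain ⟨i, rfl⟩ := hS
      exact isLayer_of F hF d s κ hκ (A i) (hA i))
  have hLB := isLayer_list hF' (Nat.log 2 r + 1) (bits d s κ r)
    (List.ofFn fun i => (B i : Set Γ)) (by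
      intro S hS
      rw [List.mem_ofFn] at hS
      obtain ⟨i, rfl⟩ := hS
      have := isLayer_of (fun (y : Y) (x : X) => F x y) hF' d s κ hκ (B i) (hB i)
      rwa [hrT] at this)
  rw [List.length_ofFn] at hLA hLB
  have hP := proto_layers hLA hLB t bX bY (by
      intro x
      obtain ⟨j, a, ha⟩ := hX x
      exact ⟨j, _, Set.mem_prod_list_ofFn.2 ⟨a, rfl⟩, ha⟩) (by
      intro y
      obtain ⟨j, b, hb⟩ := hY y
      exact ⟨j, _, Set.mem_prod_list_ofFn.2 ⟨b, rfl⟩, hb⟩)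
  refine ⟨_, hP, ?_⟩
  have h1 := bits_le d s κ hκ r
  have h2 := clog_le t
  have h3 := sum_cubes_le (l * (Nat.log 2 r + 1) + m * (Nat.log 2 r + 1))
  have h4 : ((l * (Nat.log 2 r + 1) + m * (Nat.log 2 r + 1) : ℕ) : ℝ) ≤
      ((l : ℝ) + m) * (Real.logb 2 (r : ℝ) + 1) := by
    push_cast
    have := log_le r
    have hl0 : (0 : ℝ) ≤ l := Nat.cast_nonneg _
    have hm0 : (0 : ℝ) ≤ m := Nat.cast_nonneg _
    nlinarith
  have h5 : ((∑ j ∈ range (l * (Nat.log 2 r + 1) + m * (Nat.log 2 r + 1) + 1), j ^ 3 : ℕ) : ℝ) ≤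
      (((l : ℝ) + m) * (Real.logb 2 (r : ℝ) + 1)) ^ 4 := by
    calc ((∑ j ∈ range (l * (Nat.log 2 r + 1) + m * (Nat.log 2 r + 1) + 1), j ^ 3 : ℕ) : ℝ)
        ≤ (((l * (Nat.log 2 r + 1) + m * (Nat.log 2 r + 1)) ^ 4 : ℕ) : ℝ) := by exact_mod_cast h3
      _ = ((l * (Nat.log 2 r + 1) + m * (Nat.log 2 r + 1) : ℕ) : ℝ) ^ 4 := by push_cast; ring
      _ ≤ _ := by gcongr
  have hl := logb_nonneg r
  have h6 : (0 : ℝ) ≤ (bits d s κ r : ℝ) := Nat.cast_nonneg _
  have h7 : (0 : ℝ) ≤ (((l : ℝ) + m) * (Real.logb 2 (r : ℝ) + 1)) ^ 4 := by positivity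
  have h8 : ((bits d s κ r * ∑ j ∈ range (l * (Nat.log 2 r + 1) + m * (Nat.log 2 r + 1) + 1), j ^ 3
      : ℕ) : ℝ) ≤ (((l : ℝ) + m) * (Real.logb 2 (r : ℝ) + 1)) ^ 4 *
        (κ * (Real.logb 2 (r : ℝ)) ^ s + 2 * d * (Real.logb 2 (r : ℝ) + 1) + 1) := by
    rw [Nat.cast_mul, mul_comm]
    exact mul_le_mul h5 h1 h6 h7
  rw [Nat.cast_add, Nat.cast_add]
  linarith

/-- **Graphs with layers of symmetries.** -/
theorem final_graph {V : Type} [Fintype V] (G : SimpleGraph V) [DecidableRel G.Adj]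
    (d s : ℕ) (κ : ℝ) (hκ : 0 ≤ κ) (l : ℕ) (A : Fin l → Subgroup (G ≃g G))
    (hA : ∀ i, AbelianRank d (A i) ∨ QuasirandomProduct κ s (A i)) (t : ℕ) (b : Fin t → V)
    (hV : ∀ v, ∃ (j : Fin t) (a : ∀ i, A i), v = (List.ofFn fun i => (a i : G ≃g G)).prod (b j)) :
    Real.logb 2 (G.chromaticNumber.toNat : ℝ) ≤
      (2 * l * (Real.logb 2 ((G.adjMatrix ℝ).rank : ℝ) + 1)) ^ 4 *
        (κ * (Real.logb 2 ((G.adjMatrix ℝ).rank : ℝ)) ^ s +
          2 * d * (Real.logb 2 ((G.adjMatrix ℝ).rank : ℝ) + 1) + 1) + 2 * (Real.logb 2 t + 1) := by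
  classical
  letI act : MulAction (G ≃g G) V :=
    { smul := fun g v => g v
      one_smul := fun _ => rfl
      mul_smul := fun _ _ _ => rfl }
  haveI : Finite (G ≃g G) := Finite.of_injective (fun g : G ≃g G => (g : V → V))
    (fun g h hgh => RelIso.ext (fun v => congrFun hgh v))
  have hF : ∀ (g : G ≃g G) (u v : V), decide (G.Adj (g • u) (g • v)) = decide (G.Adj u v) := by
    intro g u v
    have : G.Adj (g • u) (g • v) ↔ G.Adj u v := g.map_rel_iff
    simp only [this]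
  obtain ⟨c, h1, h2⟩ := final_matrix (fun u v : V => decide (G.Adj u v)) hF d s κ hκ l l A A hA hA
    t b b hV hV
  rw [comm_adj] at h2
  refine (logb_chromatic_le G h1).trans (h2.trans (le_of_eq ?_))
  ring

end Pool.Agent.TH668.LR
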