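import Pool.Agent.TH668.LR.Crt
import Pool.Agent.H287R3.LR.Quasi

/-!
# Layers: parametrisations of sets of symmetries by product sets, with vanishing mixed differences
-/

set_option autoImplicit false
set_option linter.unusedSectionVars false

namespace Pool.Agent.TH668.LR

open Finset Pool.Agent.H630R2.LR Pool.Agent.H287R3.LR

section vanish

variable {I : Type*} [DecidableEq I] {Ω : I → Type*}

/-- Mixed differences over a larger set vanish. -/
theorem diff_superset (g : (∀ i, Ω i) → Bool) (S T : Finset I)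
    (h : ∀ u v, diff g S u v = 0) : ∀ u v, diff g (S ∪ T) u v = 0 := by
  induction T using Finset.induction_on with
  | empty => simpa using h
  | insert i T hi ih =>
    intro u v
    by_cases hiS : i ∈ S ∪ T
    · have : S ∪ insert i T = S ∪ T := by
        rw [Finset.union_insert, Finset.insert_eq_of_mem hiS]
      rw [this]
      exact ih u v
    · rw [Finset.union_insert, DTREE.diff_insert g hiS, ih, ih, sub_zero]

end vanish

section sum

variable {I₁ I₂ : Type} [DecidableEq I₁] [DecidableEq I₂] {Ω₁ : I₁ → Type} {Ω₂ : I₂ → Type}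

theorem sum_powerset_map {α β M : Type*} [AddCommMonoid M] (e : α ↪ β) (S : Finset α)
    (f : Finset β → M) :
    ∑ T ∈ (S.map e).powerset, f T = ∑ T ∈ S.powerset, f (T.map e) := by
  symm
  refine Finset.sum_bij (fun T _ => T.map e) ?_ ?_ ?_ (fun _ _ => rfl)
  · intro T hT
    rw [Finset.mem_powerset] at hT ⊢
    exact Finset.map_subset_map.2 hT
  · intro T _ T' _ h
    exact Finset.map_injective e h
  · intro U hU
    rw [Finset.mem_powerset, Finset.subset_map_iff] at hU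
    obtain ⟨T, hT, rfl⟩ := hU
    exact ⟨T, Finset.mem_powerset.2 hT, rfl⟩

/-- combine two families -/
def comb (u : ∀ i, Ω₁ i) (v : ∀ i, Ω₂ i) : ∀ i : I₁ ⊕ I₂, Sum.elim Ω₁ Ω₂ i :=
  fun i => match i with
    | Sum.inl i => u i
    | Sum.inr i => v i

theorem comb_eta (u : ∀ i : I₁ ⊕ I₂, Sum.elim Ω₁ Ω₂ i) :
    comb (fun i => u (Sum.inl i)) (fun i => u (Sum.inr i)) = u := by
  funext i
  cases i <;> rfl

theorem comb_piecewise_inl (S : Finset I₁) (u₁ v₁ : ∀ i, Ω₁ i) (u₂ : ∀ i, Ω₂ i)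
    (v : ∀ i : I₁ ⊕ I₂, Sum.elim Ω₁ Ω₂ i) (hv : ∀ i, v (Sum.inl i) = v₁ i) :
    (S.map Function.Embedding.inl).piecewise v (comb u₁ u₂) = comb (S.piecewise v₁ u₁) u₂ := by
  funext i
  cases i with
  | inl i =>
    by_cases hi : i ∈ S
    · rw [Finset.piecewise_eq_of_mem _ _ _ (by simpa using hi)]
      show v (Sum.inl i) = S.piecewise v₁ u₁ i
      rw [Finset.piecewise_eq_of_mem _ _ _ hi, hv]
    · rw [Finset.piecewise_eq_of_notMem _ _ _ (by simpa using hi)]
      show u₁ i = S.piecewise v₁ u₁ i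
      rw [Finset.piecewise_eq_of_notMem _ _ _ hi]
  | inr i =>
    rw [Finset.piecewise_eq_of_notMem _ _ _ (by simp)]
    rfl

theorem comb_piecewise_inr (S : Finset I₂) (u₁ : ∀ i, Ω₁ i) (u₂ v₂ : ∀ i, Ω₂ i)
    (v : ∀ i : I₁ ⊕ I₂, Sum.elim Ω₁ Ω₂ i) (hv : ∀ i, v (Sum.inr i) = v₂ i) :
    (S.map Function.Embedding.inr).piecewise v (comb u₁ u₂) = comb u₁ (S.piecewise v₂ u₂) := by
  funext i
  cases i with
  | inr i =>
    by_cases hi : i ∈ S
    · rw [Finset.piecewise_eq_of_mem _ _ _ (by simpa using hi)]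
      show v (Sum.inr i) = S.piecewise v₂ u₂ i
      rw [Finset.piecewise_eq_of_mem _ _ _ hi, hv]
    · rw [Finset.piecewise_eq_of_notMem _ _ _ (by simpa using hi)]
      show u₂ i = S.piecewise v₂ u₂ i
      rw [Finset.piecewise_eq_of_notMem _ _ _ hi]
  | inl i =>
    rw [Finset.piecewise_eq_of_notMem _ _ _ (by simp)]
    rfl

theorem diff_map_inl (g : (∀ i : I₁ ⊕ I₂, Sum.elim Ω₁ Ω₂ i) → Bool) (S : Finset I₁)
    (u v : ∀ i : I₁ ⊕ I₂, Sum.elim Ω₁ Ω₂ i) :
    diff g (S.map Function.Embedding.inl) u v =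
      diff (fun w => g (comb w (fun i => u (Sum.inr i)))) S (fun i => u (Sum.inl i))
        (fun i => v (Sum.inl i)) := by
  unfold diff
  rw [sum_powerset_map]
  refine Finset.sum_congr rfl fun T _ => ?_
  have e1 : (S.map Function.Embedding.inl \ T.map Function.Embedding.inl : Finset (I₁ ⊕ I₂)) =
      (S \ T).map Function.Embedding.inl := by
    rw [Finset.map_sdiff]
  have e2 := comb_piecewise_inl T (fun i => u (Sum.inl i)) (fun i => v (Sum.inl i))
    (fun i => u (Sum.inr i)) v (fun _ => rfl)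
  rw [comb_eta] at e2
  show (-1 : ℤ) ^ (S.map Function.Embedding.inl \ T.map Function.Embedding.inl).card * _ = _
  rw [e1, Finset.card_map]
  congr 2
  exact congrArg (fun z => g z = true) e2

theorem diff_map_inr (g : (∀ i : I₁ ⊕ I₂, Sum.elim Ω₁ Ω₂ i) → Bool) (S : Finset I₂)
    (u v : ∀ i : I₁ ⊕ I₂, Sum.elim Ω₁ Ω₂ i) :
    diff g (S.map Function.Embedding.inr) u v =
      diff (fun w => g (comb (fun i => u (Sum.inl i)) w)) S (fun i => u (Sum.inr i))
        (fun i => v (Sum.inr i)) := by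
  unfold diff
  rw [sum_powerset_map]
  refine Finset.sum_congr rfl fun T _ => ?_
  have e1 : (S.map Function.Embedding.inr \ T.map Function.Embedding.inr : Finset (I₁ ⊕ I₂)) =
      (S \ T).map Function.Embedding.inr := by
    rw [Finset.map_sdiff]
  have e2 := comb_piecewise_inr T (fun i => u (Sum.inl i)) (fun i => u (Sum.inr i))
    (fun i => v (Sum.inr i)) v (fun _ => rfl)
  rw [comb_eta] at e2
  show (-1 : ℤ) ^ (S.map Function.Embedding.inr \ T.map Function.Embedding.inr).card * _ = _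
  rw [e1, Finset.card_map]
  congr 2
  exact congrArg (fun z => g z = true) e2

/-- If the mixed differences of order `> k₁` in the first group of coordinates and those of order
`> k₂` in the second group vanish, then all mixed differences of order `> k₁ + k₂` vanish. -/
theorem vanish_comb (g : (∀ i : I₁ ⊕ I₂, Sum.elim Ω₁ Ω₂ i) → Bool) (k₁ k₂ : ℕ)
    (h₁ : ∀ u₂, Vanish (fun u₁ => g (comb u₁ u₂)) k₁)
    (h₂ : ∀ u₁, Vanish (fun u₂ => g (comb u₁ u₂)) k₂) : Vanish g (k₁ + k₂) := by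
  intro S u v hS
  have hcard := Finset.card_toLeft_add_card_toRight (u := S)
  have hS2 : S = (S.toLeft.map Function.Embedding.inl) ∪ (S.toRight.map Function.Embedding.inr) := by
    ext i
    cases i <;> simp
  rcases Nat.lt_or_ge k₁ S.toLeft.card with h | h
  · rw [hS2]
    apply diff_superset
    intro u v
    rw [diff_map_inl]
    exact h₁ _ _ _ _ h
  · rw [hS2, Finset.union_comm]
    apply diff_superset
    intro u v
    rw [diff_map_inr]
    exact h₂ _ _ _ _ (by omega)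

end sum

section layer

variable {Γ X Y : Type} [Group Γ] [MulAction Γ X] [MulAction Γ Y]

/-- The set `A` of group elements is a layer for `F`: up to changes which do not matter for `F` its
elements are the `θ u`, where `u` runs over a finite product of sets of size `≤ 2 ^ w`, and the
mixed differences of order `> k` of `u ↦ F (θ u • x) y` vanish. -/
def IsLayer (F : X → Y → Bool) (A : Set Γ) (k w : ℕ) : Prop :=
  ∃ (I : Type) (_ : Fintype I) (_ : DecidableEq I) (Ω : I → Type) (_ : ∀ i, Fintype (Ω i))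
    (θ : (∀ i, Ω i) → Γ), (∀ i, Fintype.card (Ω i) ≤ 2 ^ w) ∧
    (∀ x y, Vanish (fun u => F (θ u • x) y) k) ∧
    ∀ a ∈ A, ∃ u, ∀ x y, F (θ u • x) y = F (a • x) y

theorem IsLayer.mono {F : X → Y → Bool} {A : Set Γ} {k w k' w' : ℕ} (h : IsLayer F A k w)
    (hk : k ≤ k') (hw : w ≤ w') : IsLayer F A k' w' := by
  obtain ⟨I, i1, i2, Ω, i3, θ, h1, h2, h3⟩ := h
  exact ⟨I, i1, i2, Ω, i3, θ, fun i => (h1 i).trans (Nat.pow_le_pow_right (by norm_num) hw),
    fun x y S u v hS => h2 x y S u v (lt_of_le_of_lt hk hS), h3⟩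

theorem isLayer_one (F : X → Y → Bool) (w : ℕ) : IsLayer F ({1} : Set Γ) 0 w := by
  refine ⟨Empty, inferInstance, inferInstance, fun _ => Unit, fun _ => inferInstance,
    fun _ => 1, fun i => i.elim, fun x y S u v hS => ?_, fun a ha => ⟨fun i => i.elim, ?_⟩⟩
  · exfalso
    have : S = ∅ := Finset.eq_empty_of_isEmpty S
    rw [this] at hS
    simp at hS
  · intro x y
    rw [Set.mem_singleton_iff] at ha
    rw [ha]

open Pointwise in
theorem IsLayer.mul {F : X → Y → Bool} (hF : ∀ (g : Γ) (x : X) (y : Y), F (g • x) (g • y) = F x y)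
    {A B : Set Γ} {k₁ k₂ w : ℕ} (hA : IsLayer F A k₁ w) (hB : IsLayer F B k₂ w) :
    IsLayer F (A * B) (k₁ + k₂) w := by
  have hmove : ∀ (g : Γ) (x : X) (y : Y), F (g • x) y = F x (g⁻¹ • y) := by
    intro g x y
    rw [← hF g⁻¹ (g • x) y, inv_smul_smul]
  obtain ⟨I₁, i1, i2, Ω₁, i3, θ₁, h1, h2, h3⟩ := hA
  obtain ⟨I₂, j1, j2, Ω₂, j3, θ₂, g1, g2, g3⟩ := hB
  have inst : ∀ i : I₁ ⊕ I₂, Fintype (Sum.elim Ω₁ Ω₂ i) := fun i => match i with
    | Sum.inl i => i3 i
    | Sum.inr i => j3 i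
  refine ⟨I₁ ⊕ I₂, inferInstance, inferInstance, Sum.elim Ω₁ Ω₂, inst,
    fun u => θ₁ (fun i => u (Sum.inl i)) * θ₂ (fun i => u (Sum.inr i)), ?_, ?_, ?_⟩
  · intro i
    cases i with
    | inl i =>
      refine le_trans (le_of_eq ?_) (h1 i)
      exact @Fintype.card_congr _ _ (inst (Sum.inl i)) (i3 i) (Equiv.refl _)
    | inr i =>
      refine le_trans (le_of_eq ?_) (g1 i)
      exact @Fintype.card_congr _ _ (inst (Sum.inr i)) (j3 i) (Equiv.refl _)
  · intro x y
    apply vanish_comb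
    · intro u₂
      have := h2 (θ₂ u₂ • x) y
      simpa only [mul_smul, comb] using this
    · intro u₁
      have := g2 x ((θ₁ u₁)⁻¹ • y)
      simp only [mul_smul, comb, hmove (θ₁ u₁)]
      exact this
  · rintro _ ⟨a, ha, b, hb, rfl⟩
    obtain ⟨u₁, hu₁⟩ := h3 a ha
    obtain ⟨u₂, hu₂⟩ := g3 b hb
    refine ⟨comb u₁ u₂, fun x y => ?_⟩
    show F ((θ₁ u₁ * θ₂ u₂) • x) y = F ((a * b) • x) y
    rw [mul_smul, mul_smul, hu₁, hmove a, hmove a, hu₂]

open Pointwise in
theorem isLayer_list {F : X → Y → Bool} (hF : ∀ (g : Γ) (x : X) (y : Y), F (g • x) (g • y) = F x y)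
    (k w : ℕ) : ∀ (L : List (Set Γ)), (∀ A ∈ L, IsLayer F A k w) →
    IsLayer F L.prod (L.length * k) w
  | [], _ => by
    simp only [List.prod_nil, List.length_nil, Nat.zero_mul]
    exact isLayer_one F w
  | A :: L, h => by
    have h1 := h A (by simp)
    have h2 := isLayer_list hF k w L (fun B hB => h B (by simp [hB]))
    have h3 := h1.mul hF h2
    rw [List.prod_cons, List.length_cons]
    refine h3.mono (le_of_eq ?_) le_rfl
    ring

end layer

section proto

/-- A decision tree whose variables are held by the two players gives a protocol. -/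
theorem DT_proto2 {I₁ I₂ : Type} [DecidableEq I₁] [DecidableEq I₂] {Ω₁ : I₁ → Type} {Ω₂ : I₂ → Type}
    (i₁ : ∀ i, Fintype (Ω₁ i)) (i₂ : ∀ i, Fintype (Ω₂ i))
    {g : (∀ i : I₁ ⊕ I₂, Sum.elim Ω₁ Ω₂ i) → Bool} {n : ℕ} (h : DT g n) (w : ℕ)
    (hw₁ : ∀ i, Fintype.card (Ω₁ i) ≤ 2 ^ w) (hw₂ : ∀ i, Fintype.card (Ω₂ i) ≤ 2 ^ w)
    {X Y : Type} (α : X → ∀ i, Ω₁ i) (β : Y → ∀ i, Ω₂ i) :
    Proto (fun x y => g (comb (α x) (β y))) (w * n) := by
  induction h with
  | const v n => exact (Proto.const _ v fun _ _ => rfl).mono (Nat.zero_le _)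
  | query g n i h ih =>
    have e : w * (n + 1) = w * n + w := by ring
    rw [e]
    cases i with
    | inl i =>
      refine Proto.sendX _ (fun x => α x i) w (hw₁ i)
        (fun p x y => g (Function.update (comb (α x) (β y)) (Sum.inl i) p)) _
        (fun p => ih p) (fun x y => ?_)
      congr 1
      exact (Function.update_eq_self (Sum.inl i) (comb (α x) (β y))).symm
    | inr i =>
      refine Proto.sendY _ (fun y => β y i) w (hw₂ i)
        (fun p x y => g (Function.update (comb (α x) (β y)) (Sum.inr i) p)) _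
        (fun p => ih p) (fun x y => ?_)
      congr 1
      exact (Function.update_eq_self (Sum.inr i) (comb (α x) (β y))).symm

variable {Γ X Y : Type} [Group Γ] [MulAction Γ X] [MulAction Γ Y]

/-- The protocol for a matrix with layers of symmetries. -/
theorem proto_layers {F : X → Y → Bool}
    {A B : Set Γ} {k₁ k₂ w : ℕ} (hA : IsLayer F A k₁ w)
    (hB : IsLayer (fun y x => F x y) B k₂ w) (t : ℕ) (bX : Fin t → X) (bY : Fin t → Y)
    (hX : ∀ x, ∃ j, ∃ a ∈ A, x = a • bX j) (hY : ∀ y, ∃ j, ∃ b ∈ B, y = b • bY j) :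
    Proto F (w * (∑ j ∈ range (k₁ + k₂ + 1), j ^ 3) + Nat.clog 2 t + Nat.clog 2 t) := by
  classical
  obtain ⟨I₁, i1, i2, Ω₁, i3, θ₁, h1, h2, h3⟩ := hA
  obtain ⟨I₂, j1, j2, Ω₂, j3, θ₂, g1, g2, g3⟩ := hB
  have hX2 : ∀ x, ∃ j, ∃ u, ∀ y, F x y = F (θ₁ u • bX j) y := by
    intro x
    obtain ⟨j, a, ha, rfl⟩ := hX x
    obtain ⟨u, hu⟩ := h3 a ha
    exact ⟨j, u, fun y => (hu (bX j) y).symm⟩
  have hY2 : ∀ y, ∃ j, ∃ u, ∀ x, F x y = F x (θ₂ u • bY j) := by
    intro y
    obtain ⟨j, a, ha, rfl⟩ := hY y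
    obtain ⟨u, hu⟩ := g3 a ha
    exact ⟨j, u, fun x => (hu (bY j) x).symm⟩
  choose jx ux hux using hX2
  choose jy uy huy using hY2
  have hcard : Fintype.card (Fin t) ≤ 2 ^ Nat.clog 2 t := by
    rw [Fintype.card_fin]
    exact Nat.le_pow_clog (by norm_num) _
  refine Proto.sendX F jx (Nat.clog 2 t) hcard (fun q x y => F (θ₁ (ux x) • bX q) y) _
    (fun q => ?_) (fun x y => hux x y)
  refine Proto.sendY _ jy (Nat.clog 2 t) hcard
    (fun q' x y => F (θ₁ (ux x) • bX q) (θ₂ (uy y) • bY q')) _ (fun q' => ?_)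
    (fun x y => huy y _)
  set g : (∀ i : I₁ ⊕ I₂, Sum.elim Ω₁ Ω₂ i) → Bool := fun u =>
    F (θ₁ (fun i => u (Sum.inl i)) • bX q) (θ₂ (fun i => u (Sum.inr i)) • bY q') with hg
  have hv : Vanish g (k₁ + k₂) := by
    apply vanish_comb
    · intro u₂
      exact h2 (bX q) (θ₂ u₂ • bY q')
    · intro u₁
      exact g2 (bY q') (θ₁ u₁ • bX q)
  have hdt := dt_of_vanish g _ hv
  exact DT_proto2 i3 j3 hdt w h1 g1 ux uy

end proto

end Pool.Agent.TH668.LR
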