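import Pool.Agent.TH668.LR.Layer
import Pool.Agent.H287R3.LR.Graph

/-!
# Abelian layers and layers which are products of perfect groups
-/

set_option autoImplicit false
set_option linter.unusedSectionVars false

namespace Pool.Agent.TH668.LR

open Finset Pool.Agent.H630R2.LR Pool.Agent.H287R3.LR

variable {Γ X Y : Type} [Group Γ] [Fintype X] [Fintype Y] [MulAction Γ X] [MulAction Γ Y]

theorem move {F : X → Y → Bool} (hF : ∀ (g : Γ) (x : X) (y : Y), F (g • x) (g • y) = F x y)
    (g : Γ) (x : X) (y : Y) : F (g • x) y = F x (g⁻¹ • y) := by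
  rw [← hF g⁻¹ (g • x) y, inv_smul_smul]

/-- The image of a finite abelian group with `d` generators is a layer. -/
theorem abelian_core {G : Type} [AddCommGroup G] [Fintype G] (φ : Multiplicative G →* Γ)
    (d : ℕ) (gens : Fin d → G) (hgens : ∀ x : G, ∃ a : Fin d → ℤ, x = ∑ i, a i • gens i)
    (F : X → Y → Bool) (hF : ∀ (g : Γ) (x : X) (y : Y), F (g • x) (g • y) = F x y) :
    IsLayer F (Set.range φ) (Nat.log 2 (comm F).rank + 1)
      (d * Nat.clog 2 (2 * (comm F).rank)) := by
  classical
  set s := (comm F).rank with hs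
  let f : X × Y → G → Bool := fun p a => F (φ (Multiplicative.ofAdd a) • p.1) p.2
  have hrank : ∀ p : X × Y, (comm (fun a b : G => f p (a + b))).rank ≤ s := by
    intro p
    have e : comm (fun a b : G => f p (a + b)) =
        (comm F).submatrix (fun a : G => φ (Multiplicative.ofAdd a) • p.1)
          (fun b : G => (φ (Multiplicative.ofAdd b))⁻¹ • p.2) := by
      ext a b
      show (if F (φ (Multiplicative.ofAdd (a + b)) • p.1) p.2 then (1 : ℝ) else 0) =
        if F (φ (Multiplicative.ofAdd a) • p.1) ((φ (Multiplicative.ofAdd b))⁻¹ • p.2) then 1 else 0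
      rw [add_comm a b, ofAdd_add, map_mul, mul_smul, move hF (φ (Multiplicative.ofAdd b))]
    rw [e]
    exact Matrix.rank_submatrix_le _ _ _
  have hS : ∀ p, (spec (f p)).card ≤ s := fun p => (card_spec_le_rank (f p)).trans (hrank p)
  have hpos : ∀ χ : AddChar G ℂ, 0 < orderOf χ := fun χ => orderOf_pos χ
  have htot : ∀ p, ∀ χ ∈ spec (f p), (orderOf χ).totient ≤ s := fun p χ hχ =>
    (totient_le (f p) χ (by simpa [spec] using hχ)).trans (hS p)
  obtain ⟨I, i1, i2, Ω, i3, θ, q, h1, h2, h3⟩ := crt_family f d gens hgens (2 * s)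
    (Nat.log 2 s + 1)
    (fun p χ hχ => card_primeFactors_le _ _ (hpos χ) (htot p χ hχ))
    (fun p χ hχ p' hp => primePow_le _ _ _ (hpos χ) (htot p χ hχ) hp)
  refine ⟨I, i1, i2, Ω, i3, fun u => φ (Multiplicative.ofAdd (θ u)), fun i => ?_,
    fun x y => h2 (x, y), ?_⟩
  · refine (h1 i).trans ?_
    rw [mul_comm d, pow_mul]
    exact Nat.pow_le_pow_left (Nat.le_pow_clog (by norm_num) _) _
  · rintro _ ⟨a, rfl⟩
    exact ⟨q (Multiplicative.toAdd a), fun x y => h3 (x, y) (Multiplicative.toAdd a)⟩

/-- A finite abelian group of symmetries with `d` generators is a layer. -/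
theorem abelian_layer [Finite Γ] (A : Subgroup Γ) (hcomm : ∀ a b : A, a * b = b * a)
    (d : ℕ) (gens : Fin d → A) (hgens : Subgroup.closure (Set.range gens) = ⊤)
    (F : X → Y → Bool) (hF : ∀ (g : Γ) (x : X) (y : Y), F (g • x) (g • y) = F x y) :
    IsLayer F (A : Set Γ) (Nat.log 2 (comm F).rank + 1)
      (d * Nat.clog 2 (2 * (comm F).rank)) := by
  classical
  letI : CommGroup A := { (inferInstance : Group A) with mul_comm := hcomm }
  haveI : Fintype (Additive A) := Fintype.ofFinite _
  let φ : Multiplicative (Additive A) →* Γ :=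
    { toFun := fun a => ((Additive.toMul (Multiplicative.toAdd a) : A) : Γ)
      map_one' := rfl
      map_mul' := fun _ _ => rfl }
  have hr : Set.range φ = (A : Set Γ) := by
    ext x
    constructor
    · rintro ⟨a, rfl⟩
      exact (Additive.toMul (Multiplicative.toAdd a) : A).2
    · intro hx
      exact ⟨Multiplicative.ofAdd (Additive.ofMul ⟨x, hx⟩), rfl⟩
  have hg2 : ∀ x : Additive A, ∃ a : Fin d → ℤ, x = ∑ i, a i • Additive.ofMul (gens i) := by
    intro x
    have hcl : AddSubgroup.closure (Set.range (fun i => Additive.ofMul (gens i))) = ⊤ := by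
      rw [eq_top_iff]
      intro y _
      have hy : Additive.toMul y ∈ Subgroup.closure (Set.range gens) := by
        rw [hgens]; exact Subgroup.mem_top _
      have key : ∀ z : A, z ∈ Subgroup.closure (Set.range gens) →
          Additive.ofMul z ∈ AddSubgroup.closure (Set.range (fun i => Additive.ofMul (gens i))) := by
        intro z hz
        induction hz using Subgroup.closure_induction with
        | mem z hz =>
          obtain ⟨i, rfl⟩ := hz
          exact AddSubgroup.subset_closure ⟨i, rfl⟩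
        | one => exact AddSubgroup.zero_mem _
        | mul a b _ _ ha hb => exact AddSubgroup.add_mem _ ha hb
        | inv a _ ha => exact AddSubgroup.neg_mem _ ha
      exact key _ hy
    have hx : x ∈ Submodule.span ℤ (Set.range (fun i => Additive.ofMul (gens i))) := by
      have : x ∈ (Submodule.span ℤ (Set.range (fun i => Additive.ofMul (gens i)))).toAddSubgroup := by
        rw [Submodule.span_int_eq_addSubgroupClosure, hcl]
        exact AddSubgroup.mem_top x
      exact this
    rw [Submodule.mem_span_range_iff_exists_fun] at hx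
    obtain ⟨a, ha⟩ := hx
    exact ⟨a, ha.symm⟩
  rw [← hr]
  exact abelian_core φ d (fun i => Additive.ofMul (gens i)) hg2 F hF

section perfect

variable {I : Type} [Fintype I] [DecidableEq I] {H : I → Type} [∀ i, Group (H i)] [∀ i, Finite (H i)]

/-- The image of a direct product of perfect groups is a layer. -/
theorem perfect_core (φ : (∀ i, H i) →* Γ)
    (hperf : ∀ i, commutator (H i) = ⊤) (w : ℕ) (F : X → Y → Bool)
    (hF : ∀ (g : Γ) (x : X) (y : Y), F (g • x) (g • y) = F x y)
    (hw : ∀ i, (∃ x y, H287R3.LR.Rel (fun h : ∀ i, H i => F (φ h • x) y) i) → Nat.card (H i) ≤ 2 ^ w) :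
    IsLayer F (Set.range φ) (Nat.log 2 (comm F).rank) w := by
  classical
  have : ∀ i, Fintype (H i) := fun i => Fintype.ofFinite _
  let J := {i : I // ∃ x y, H287R3.LR.Rel (fun h : ∀ i, H i => F (φ h • x) y) i}
  let ext : (∀ j : J, H j.1) → (∀ i, H i) := fun z i =>
    if h : ∃ x y, H287R3.LR.Rel (fun h : ∀ i, H i => F (φ h • x) y) i then z ⟨i, h⟩ else 1
  have hext : ∀ x y : ∀ j : J, H j.1, ext (x⁻¹ * y) = (ext x)⁻¹ * ext y := by
    intro x y
    funext i
    by_cases h : ∃ x y, H287R3.LR.Rel (fun h : ∀ i, H i => F (φ h • x) y) i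
    · simp only [ext, dif_pos h, Pi.mul_apply, Pi.inv_apply]
    · simp only [ext, dif_neg h, Pi.mul_apply, Pi.inv_apply, inv_one, mul_one]
  refine ⟨J, inferInstance, inferInstance, fun j => H j.1, fun j => inferInstance,
    fun z => φ (ext z), fun j => ?_, fun x y => ?_, ?_⟩
  · rw [← Nat.card_eq_fintype_card]
    exact hw j.1 j.2
  · have h1 : (comm (fun a b : ∀ j : J, H j.1 =>
        (fun z : ∀ j : J, H j.1 => F (φ (ext z) • x) y) (a⁻¹ * b))).rank ≤ (comm F).rank := by
      have e : comm (fun a b : ∀ j : J, H j.1 =>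
          (fun z : ∀ j : J, H j.1 => F (φ (ext z) • x) y) (a⁻¹ * b)) =
          ((comm F).transpose).submatrix (fun a => φ (ext a) • y) (fun b => φ (ext b) • x) := by
        ext a b
        show (if F (φ (ext (a⁻¹ * b)) • x) y then (1 : ℝ) else 0) =
          if F (φ (ext b) • x) (φ (ext a) • y) then (1 : ℝ) else 0
        rw [hext, map_mul, map_inv, mul_smul, move hF (φ (ext a))⁻¹, inv_inv]
      rw [e]
      refine (Matrix.rank_submatrix_le _ _ _).trans ?_
      rw [Matrix.rank_transpose]
    have h2 := vanish_of_rank (G := fun j : J => H j.1) (fun j => hperf j.1)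
      (fun z : ∀ j : J, H j.1 => F (φ (ext z) • x) y)
    intro S u v hS
    exact h2 S u v (lt_of_le_of_lt (Nat.log_mono_right h1) hS)
  · rintro _ ⟨h, rfl⟩
    refine ⟨fun j => h j.1, fun x y => ?_⟩
    apply eq_of_agree (fun h : ∀ i, H i => F (φ h • x) y)
    intro i hi
    have hex : ∃ x y, H287R3.LR.Rel (fun h : ∀ i, H i => F (φ h • x) y) i := ⟨x, y, hi⟩
    simp only [ext, dif_pos hex]

/-- quasirandomness bounds the size of the relevant factors -/
theorem perfect_layer (φ : (∀ i, H i) →* Γ)
    (hperf : ∀ i, commutator (H i) = ⊤) (κ : ℝ) (hκ : 0 ≤ κ)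
    (s : ℕ) (hrep : ∀ (i : I) (n : ℕ) (ρ : H i →* Matrix.GeneralLinearGroup (Fin n) ℂ), ρ ≠ 1 →
      Real.logb 2 (Nat.card (H i)) ≤ κ * (Real.logb 2 n) ^ s)
    (F : X → Y → Bool) (hF : ∀ (g : Γ) (x : X) (y : Y), F (g • x) (g • y) = F x y) :
    IsLayer F (Set.range φ) (Nat.log 2 (comm F).rank)
      (⌊κ * (Real.logb 2 ((comm F).rank : ℝ)) ^ s⌋₊ + 1) := by
  classical
  have : ∀ i, Fintype (H i) := fun i => Fintype.ofFinite _
  set r := (comm F).rank with hr
  have hlr := logb_nonneg r
  set B : ℝ := κ * (Real.logb 2 (r : ℝ)) ^ s with hB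
  have hB0 : 0 ≤ B := by positivity
  have hw1 : B ≤ (⌊B⌋₊ + 1 : ℕ) := by
    push_cast
    exact (Nat.lt_floor_add_one B).le
  apply perfect_core φ hperf _ F hF
  rintro i ⟨x, y, u, g, hne⟩
  set f : (∀ i, H i) → Bool := fun h => F (φ h • x) y with hf
  obtain ⟨ρ, hρ⟩ := exists_rep (MonoidHom.mulSingle H i) f u g hne
  have h1 := hrep i _ ρ hρ
  have hrk : (comm (fun a b : ∀ i, H i => f (a⁻¹ * b))).rank ≤ r := by
    have e : comm (fun a b : ∀ i, H i => f (a⁻¹ * b)) =
        ((comm F).transpose).submatrix (fun a => φ a • y) (fun b => φ b • x) := by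
      ext a b
      show (if F (φ (a⁻¹ * b) • x) y then (1 : ℝ) else 0) =
        if F (φ b • x) (φ a • y) then (1 : ℝ) else 0
      rw [map_mul, map_inv, mul_smul, move hF (φ a)⁻¹, inv_inv]
    rw [e]
    refine (Matrix.rank_submatrix_le _ _ _).trans ?_
    rw [Matrix.rank_transpose]
  have hd : Module.finrank ℂ (rowSpace f) ≤ r := (finrank_rowSpace_le f).trans hrk
  have h2 : Real.logb 2 (Module.finrank ℂ (rowSpace f) : ℝ) ≤ Real.logb 2 (r : ℝ) := by
    rcases Nat.eq_zero_or_pos (Module.finrank ℂ (rowSpace f)) with h0 | h0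
    · rw [h0]
      simpa using hlr
    · exact Real.logb_le_logb_of_le (by norm_num) (by exact_mod_cast h0) (by exact_mod_cast hd)
  have h3 : Real.logb 2 (Nat.card (H i)) ≤ (⌊B⌋₊ + 1 : ℕ) := by
    refine le_trans h1 (le_trans ?_ hw1)
    rw [hB]
    have := logb_nonneg (Module.finrank ℂ (rowSpace f))
    gcongr
  have hcard : (0 : ℝ) < Nat.card (H i) := by exact_mod_cast Nat.card_pos
  rw [Real.logb_le_iff_le_rpow (by norm_num) hcard, Real.rpow_natCast] at h3
  exact_mod_cast h3

end perfect

end Pool.Agent.TH668.LR
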